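import Pool.Agent.H24.Dbg2

set_option autoImplicit false

namespace Pool.Agent.Results.MP_868529_lc.NPHard

open Pool.Agent.H11.PT Pool.Agent.H24.Dbg

theorem result : NPHard InL2 := hard.npHard

end Pool.Agent.Results.MP_868529_lc.NPHard
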